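import Mathlib
import Pool.Agent.W663.SX.Stm

/-! # SX-OB: adapted orthonormal systems -/

set_option autoImplicit false
open scoped Matrix.Norms.L2Operator Matrix ComplexOrder

noncomputable section

namespace Pool.Agent.W85.SX.OB

open Pool.Agent.W663.SX

/-- orthonormal bases from a core -/
theorem onb_core {E : Type} [AddCommGroup E] [Module ℂ E] [FiniteDimensional ℂ E]
    (c : InnerProductSpace.Core ℂ E) :
    ∃ (k : ℕ) (b : Fin k → E), (∀ i j, c.inner (b i) (b j) = if i = j then 1 else 0) ∧
      ∀ x, x = ∑ i, c.inner (b i) x • b i := by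
  letI : NormedAddCommGroup E := c.toNormedAddCommGroup
  letI : InnerProductSpace ℂ E := InnerProductSpace.ofCore c.toCore
  let B := stdOrthonormalBasis ℂ E
  refine ⟨_, B, fun i j => ?_, fun x => ?_⟩
  · exact (orthonormal_iff_ite.1 B.orthonormal) i j
  · exact (B.sum_repr' x).symm

variable {A : Type} [CStarAlgebra A]

/-- orthonormal bases of a finite dimensional subspace -/
theorem onb_sub (h2 : S_ST) {ρ : A →ₗ[ℂ] ℂ} (hρ : St ρ) (V : Submodule ℂ A)
    [FiniteDimensional ℂ V] (hf : ∀ x ∈ V, (ρ (star x * x)).re = 0 → x = 0) :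
    ∃ (k : ℕ) (e : Fin k → A), (∀ i, e i ∈ V) ∧
      (∀ i j, ρ (star (e i) * e j) = if i = j then 1 else 0) ∧
      ∀ x ∈ V, x = ∑ i, ρ (star (e i) * x) • e i := by
  have hst := (h2 A ρ hρ).1
  let c : InnerProductSpace.Core ℂ V :=
    { inner := fun x y => ρ (star (x : A) * (y : A))
      conj_inner_symm := fun x y => by
        show star (ρ (star (y : A) * (x : A))) = _
        rw [← hst, star_mul, star_star]
      re_inner_nonneg := fun x => hρ.nn x
      add_left := fun x y z => by
        show ρ (star ((x : A) + (y : A)) * (z : A)) = _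
        rw [star_add, add_mul, map_add]
      smul_left := fun x y r => by
        show ρ (star (r • (x : A)) * (y : A)) = _
        rw [star_smul, smul_mul_assoc, map_smul]
        rfl
      definite := fun x hx => by
        have h1 : (ρ (star (x : A) * (x : A))).re = 0 := by rw [hx]; rfl
        exact Subtype.ext (hf x x.2 h1) }
  obtain ⟨k, b, h3, h4⟩ := onb_core c
  refine ⟨k, fun i => (b i : A), fun i => (b i).2, h3, fun x hx => ?_⟩
  have h5 := congrArg (Subtype.val : V → A) (h4 ⟨x, hx⟩)
  rw [Submodule.coe_sum] at h5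
  exact h5

/-- the part of level `m` -/
def Vm (F : ℕ → Submodule ℂ A) (ρ : A →ₗ[ℂ] ℂ) (m : ℕ) : Submodule ℂ A where
  carrier := {x | x ∈ F m ∧ ∀ j < m, ∀ y ∈ F j, ρ (star y * x) = 0}
  add_mem' := by
    rintro a b ⟨ha, ha'⟩ ⟨hb, hb'⟩
    refine ⟨(F m).add_mem ha hb, fun j hj y hy => ?_⟩
    rw [mul_add, map_add, ha' j hj y hy, hb' j hj y hy, add_zero]
  zero_mem' := ⟨(F m).zero_mem, fun j hj y hy => by rw [mul_zero, map_zero]⟩
  smul_mem' := by
    rintro c a ⟨ha, ha'⟩
    refine ⟨(F m).smul_mem c ha, fun j hj y hy => ?_⟩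
    rw [mul_smul_comm, map_smul, ha' j hj y hy, smul_zero]

theorem t (h2 : S_ST) : S_OB := by
  intro A _ F hmono hfd hF0 N ρ hρ hfaith
  have hst := (h2 A ρ hρ).1
  have hfaith' : ∀ m ≤ N, ∀ x ∈ Vm F ρ m, (ρ (star x * x)).re = 0 → x = 0 :=
    fun m hm x hx => hfaith x (hmono hm hx.1)
  have hV : ∀ m : Fin (N + 1), ∃ (k : ℕ) (e : Fin k → A), (∀ i, e i ∈ Vm F ρ m) ∧
      (∀ i j, ρ (star (e i) * e j) = if i = j then 1 else 0) ∧
      ∀ x ∈ Vm F ρ m, x = ∑ i, ρ (star (e i) * x) • e i := by
    intro m
    haveI := hfd m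
    haveI : FiniteDimensional ℂ (Vm F ρ m) :=
      Submodule.finiteDimensional_of_le (S₂ := F m) (fun x hx => hx.1)
    exact onb_sub h2 hρ _ (hfaith' m (Nat.lt_succ_iff.1 m.2))
  choose k e he1 he2 he3 using hV
  set ι := Σ m : Fin (N + 1), Fin (k m) with hι
  let E : ι → A := fun p => e p.1 p.2
  have hE1 : ∀ p : ι, E p ∈ F p.1 := fun p => (he1 p.1 p.2).1
  have hsym : ∀ x y : A, ρ (star x * y) = star (ρ (star y * x)) := by
    intro x y
    rw [← hst, star_mul, star_star]
  -- coefficients of high level vanish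
  have hE2 : ∀ (p : ι) (n : ℕ), n < p.1 → ∀ x ∈ F n, ρ (star (E p) * x) = 0 := by
    intro p n hn x hx
    rw [hsym, (he1 p.1 p.2).2 n hn x hx, star_zero]
  have hE3 : ∀ p p' : ι, ρ (star (E p) * E p') = if p = p' then 1 else 0 := by
    rintro ⟨m, i⟩ ⟨m', i'⟩
    by_cases hm : m = m'
    · subst hm
      show ρ (star (e m i) * e m i') = _
      rw [he2 m i i']
      by_cases hi : i = i'
      · subst hi; simp
      · rw [if_neg hi, if_neg]
        intro h
        rw [Sigma.mk.injEq] at h
        exact hi (eq_of_heq h.2)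
    · rw [if_neg (fun h => hm (by rw [Sigma.mk.injEq] at h; exact h.1))]
      rcases lt_or_gt_of_ne hm with h | h
      · rw [hsym, hE2 ⟨m', i'⟩ m h _ (hE1 ⟨m, i⟩), star_zero]
      · exact hE2 ⟨m, i⟩ m' h _ (hE1 ⟨m', i'⟩)
  have key : ∀ n ≤ N, ∀ x ∈ F n, x = ∑ p : ι, ρ (star (E p) * x) • E p := by
    intro n
    induction n using Nat.strong_induction_on with
    | _ n ih =>
      intro hn x hx
      set T := ∑ p : ι, ρ (star (E p) * x) • E p with hT
      have hTF : T ∈ F n := by
        rw [hT]
        refine Submodule.sum_mem _ fun p _ => ?_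
        by_cases hp : n < p.1
        · rw [hE2 p n hp x hx, zero_smul]; exact Submodule.zero_mem _
        · exact Submodule.smul_mem _ _ (hmono (not_lt.1 hp) (hE1 p))
      have horth : ∀ p : ι, ρ (star (E p) * (x - T)) = 0 := by
        intro p
        rw [mul_sub, map_sub, hT, Finset.mul_sum, map_sum]
        have : ∀ p' : ι, ρ (star (E p) * (ρ (star (E p') * x) • E p'))
            = if p = p' then ρ (star (E p') * x) else 0 := by
          intro p'
          rw [mul_smul_comm, map_smul, hE3, smul_eq_mul]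
          split_ifs <;> simp
        rw [Finset.sum_congr rfl fun p' _ => this p', Finset.sum_ite_eq, if_pos (Finset.mem_univ _),
          sub_self]
      have hw : x - T ∈ Vm F ρ n := by
        refine ⟨Submodule.sub_mem _ hx hTF, fun j hj z hz => ?_⟩
        rw [ih j hj (hj.le.trans hn) z hz, star_sum, Finset.sum_mul, map_sum]
        refine Finset.sum_eq_zero fun p _ => ?_
        rw [star_smul, smul_mul_assoc, map_smul, horth, smul_zero]
      have h6 := he3 ⟨n, Nat.lt_succ_of_le hn⟩ (x - T) hw
      have h7 : x - T = 0 := by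
        rw [h6]
        refine Finset.sum_eq_zero fun i _ => ?_
        have := horth ⟨⟨n, Nat.lt_succ_of_le hn⟩, i⟩
        change ρ (star (e _ i) * (x - T)) = 0 at this
        rw [this, zero_smul]
      exact sub_eq_zero.1 h7
  -- transport to `Fin`
  let q := Fintype.equivFin ι
  have hne : (1 : A) ≠ 0 := by
    intro h
    have := hρ.one
    rw [h, map_zero] at this
    exact zero_ne_one this
  refine ⟨Fintype.card ι, fun i => E (q.symm i), fun i => (q.symm i).1, ?_, ?_, ?_, ?_, ?_, ?_, ?_⟩
  · intro i; exact Nat.lt_succ_iff.1 (q.symm i).1.2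
  · intro i; exact hE1 _
  · intro i j
    rw [hE3]
    by_cases h : i = j
    · subst h; simp
    · rw [if_neg h, if_neg (fun h' => h (q.symm.injective h'))]
  · intro x hx
    rw [Equiv.sum_comp q.symm (fun p => ρ (star (E p) * x) • E p)]
    exact key N le_rfl x hx
  · intro n _ x hx i hi
    exact hE2 _ n hi x hx
  · haveI := hfd N
    have hmem : ∀ p : ι, E p ∈ F N := fun p => hmono (Nat.lt_succ_iff.1 p.1.2) (hE1 p)
    have hli : LinearIndependent ℂ (fun p : ι => (⟨E p, hmem p⟩ : F N)) := by
      rw [Fintype.linearIndependent_iff]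
      intro g hg p
      have h8 := congrArg (Subtype.val : F N → A) hg
      rw [Submodule.coe_sum] at h8
      have h9 := congrArg (fun y => ρ (star (E p) * y)) h8
      simp only [Submodule.coe_smul, Submodule.coe_zero, mul_zero, map_zero, Finset.mul_sum,
        map_sum, mul_smul_comm, map_smul, hE3, smul_eq_mul, mul_ite, mul_one,
        Finset.sum_ite_eq, Finset.mem_univ, if_true] at h9
      exact h9
    exact hli.fintype_card_le_finrank
  · have h1F : (1 : A) ∈ F 0 := by rw [hF0]; exact Submodule.mem_span_singleton_self _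
    have h10 : ∃ p : ι, (p.1 : ℕ) = 0 := by
      by_contra hcon
      push Not at hcon
      apply hne
      rw [key 0 (Nat.zero_le _) 1 h1F]
      refine Finset.sum_eq_zero fun p _ => ?_
      rw [hE2 p 0 (Nat.pos_of_ne_zero (hcon p)) 1 h1F, zero_smul]
    obtain ⟨p, hp⟩ := h10
    refine ⟨q p, ?_, ?_⟩
    · show E (q.symm (q p)) * star (E (q.symm (q p))) = 1
      rw [Equiv.symm_apply_apply]
      have h11 := hE1 p
      rw [hp, hF0, Submodule.mem_span_singleton] at h11
      obtain ⟨c, hc⟩ := h11
      have h12 := hE3 p p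
      rw [if_pos rfl, ← hc, star_smul, star_one, smul_mul_smul_comm, one_mul, map_smul, hρ.one,
        smul_eq_mul, mul_one] at h12
      rw [← hc, star_smul, star_one, smul_mul_smul_comm, one_mul, mul_comm, h12, one_smul]
    · show ((q.symm (q p)).1 : ℕ) = 0
      rw [Equiv.symm_apply_apply]; exact hp

end Pool.Agent.W85.SX.OB
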